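import Pool.Agent.MWKP.Stmts

/-!
# Row LVC of squad MWKP: monotonicity of the level bits
-/

namespace Pool.Agent.MWKP.H58

open Pool.Agent.Helper14_MV Pool.Agent.Helper2_MV Pool.Agent.MWK Pool.Agent.MWKP

theorem lvc (h : LvnStmt) : LvcStmt := by
  intro n θ hK m j m' j' hj hj' hlt hL
  have within : ∀ (a b k : ℕ), b + k ≤ a + 2 → Lv n a b θ → Lv n a (b + k) θ := by
    intro a b k
    induction k with
    | zero => intro _ h0; simpa using h0
    | succ k ih =>
      intro hk h0
      exact (h n θ hK a).1 (b + k) (by omega) (ih (by omega) h0)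
  have inside : ∀ (a b c : ℕ), b ≤ c → c ≤ a + 2 → Lv n a b θ → Lv n a c θ := by
    intro a b c hbc hc h0
    obtain ⟨k, rfl⟩ := Nat.exists_eq_add_of_le hbc
    exact within a b k hc h0
  have up : ∀ (k a b : ℕ), b ≤ a + 2 → Lv n a b θ → Lv n (a + k + 1) 0 θ := by
    intro k
    induction k with
    | zero =>
      intro a b hb h0
      exact (h n θ hK a).2.1 (inside a b (a + 2) hb le_rfl h0)
    | succ k ih =>
      intro a b hb h0
      have h1 := ih a b hb h0
      exact (h n θ hK (a + k + 1)).2.1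
        (inside (a + k + 1) 0 (a + k + 1 + 2) (Nat.zero_le _) le_rfl h1)
  rcases hlt with hlt | ⟨rfl, hjj⟩
  · obtain ⟨k, hk⟩ : ∃ k, m' = m + k + 1 := ⟨m' - m - 1, by omega⟩
    subst hk
    exact inside (m + k + 1) 0 j' (Nat.zero_le _) hj' (up k m j hj hL)
  · exact inside m j j' hjj hj' hL

end Pool.Agent.MWKP.H58
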